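import Pool.Agent.H90.CNY.Stmts

set_option autoImplicit false

namespace Pool.CND

section

variable {k L : Type} [Field k] [Field L] [Algebra k L] (P : Place k L)

theorem ylc_pow_sub {x y : L} (hx : P.Ge x 1) (hy : P.Ge y 1) (hxy : P.Ge (x - y) 2) (m : ℕ) :
    P.Ge (x ^ m - y ^ m) (m + 1) := by
  have hym : ∀ m : ℕ, P.Ge (y ^ m) m := by
    intro m
    induction m with
    | zero => rw [pow_zero]; exact Or.inr (by rw [P.ord_one]; simp)
    | succ m ih =>
      rw [pow_succ]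
      have := P.ge_mul ih hy
      push_cast
      exact this
  induction m with
  | zero => rw [pow_zero, pow_zero, sub_self]; exact P.ge_zero _
  | succ m ih =>
    have e : x ^ (m + 1) - y ^ (m + 1) = x * (x ^ m - y ^ m) + (x - y) * y ^ m := by ring
    rw [e]
    refine P.ge_add ?_ ?_
    · refine P.ge_mono (P.ge_mul hx ih) ?_
      push_cast; linarith
    · refine P.ge_mono (P.ge_mul hxy (hym m)) ?_
      push_cast; linarith

end

theorem ylc_thm (hEXP : S_EXP) (hLON : S_LON) (hRAM : S_RAM) (hINJ : S_INJ) : S_YLC := by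
  intro k L G _ _ _ _ P ρ W I ζ hρ hW hI hζ hπ w hw hw1
  have hwr : w ∈ ram P ρ 1 := by rw [← hW]; exact hw
  have h1 := (hRAM k L G P ρ w 1 le_rfl).1 hwr
  have hσF : Fixes P (ρ w) := h1.1
  have hσ1 : ρ w ≠ 1 := fun h => hw1 (hρ (by rw [h, map_one]))
  have hb1 : (1 : ℤ) ≤ P.b (ρ w) := by
    have := h1.2.resolve_left hσ1
    exact_mod_cast this
  have hD : ρ w P.pi - P.pi ≠ 0 := by
    intro h
    exact hσ1 (hINJ k L P (ρ w) P.pi hσF P.pi_ne P.ord_pi (sub_eq_zero.1 h))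
  obtain ⟨i, hi⟩ : ∃ i : ℕ, (i : ℤ) = P.b (ρ w) := ⟨(P.b (ρ w)).toNat, Int.toNat_of_nonneg (by omega)⟩
  have hi1 : 1 ≤ i := by omega
  have hordD : P.ord (ρ w P.pi - P.pi) = i + 1 := by
    rw [hi, Place.b]; ring
  obtain ⟨a, ha, haG⟩ := hEXP k L P P.pi (ρ w P.pi - P.pi) P.pi_ne P.ord_pi hD
  rw [hordD] at haG
  have haG' : P.Ge (ρ w P.pi - P.pi - algebraMap k L a * P.pi ^ (i + 1)) (i + 2) := by
    have e : P.pi ^ ((i : ℤ) + 1) = P.pi ^ (i + 1) := by
      rw [← zpow_natCast]; push_cast; rfl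
    rw [e] at haG
    exact P.ge_mono haG (by linarith)
  refine ⟨i, a, hi1, hi, ha, ?_⟩
  intro g hg
  have hgr : g ∈ ram P ρ 0 := by rw [← hI]; exact hg
  have hγF : Fixes P (ρ g) := hgr.1
  have hγF' : Fixes P (ρ g)⁻¹ := hγF.inv
  have hc : ζ g ≠ 0 := hζ.ne g hg
  set c := ζ g with hcdef
  have hcL : algebraMap k L c ≠ 0 := by
    rw [Ne, map_eq_zero]; exact hc
  set γ := ρ g with hγ
  set σ := ρ w with hσ
  set π := P.pi with hpi
  have he : P.Ge (γ π - algebraMap k L c * π) 2 := hπ g hg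
  -- the element v
  set v := γ⁻¹ π with hv
  have hγv : γ v = π := by
    rw [hv, ← AlgEquiv.mul_apply, mul_inv_cancel, AlgEquiv.one_apply]
  set e' := γ⁻¹ (γ π - algebraMap k L c * π) with he'
  have he'G : P.Ge e' 2 := hγF'.ge he
  have he'2 : e' = π - algebraMap k L c * v := by
    rw [he', map_sub, map_mul, AlgEquiv.commutes, ← AlgEquiv.mul_apply, inv_mul_cancel,
      AlgEquiv.one_apply]
  have hv2 : v = algebraMap k L c⁻¹ * (π - e') := by
    rw [he'2, map_inv₀]
    field_simp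
    ring
  have hσe' : P.Ge (σ e' - e') (i + 2) := by
    have h2 : P.Ge (σ π - π) (i + 1) := Or.inr (by rw [hordD])
    rcases hLON k L P σ π i hσF P.pi_ne P.ord_pi (by omega) h2 e' with h3 | h3
    · rcases he'G with h4 | h4
      · rw [h4, map_zero, sub_zero]; exact P.ge_zero _
      · exact P.ge_mono h3 (by linarith)
    · rw [h3, map_zero, sub_zero]; exact P.ge_zero _
  have hσv : σ v - v = algebraMap k L c⁻¹ * ((σ π - π) - (σ e' - e')) := by
    rw [hv2, map_mul, AlgEquiv.commutes, map_sub]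
    ring
  have hcalc : ρ (g * w * g⁻¹) P.pi - P.pi = γ (σ v - v) := by
    rw [map_sub, hγv, map_mul, map_mul, map_inv, AlgEquiv.mul_apply, AlgEquiv.mul_apply]
  -- leading term of (γ π) ^ (i + 1)
  have hπ1 : P.Ge π 1 := Or.inr (by rw [P.ord_pi])
  have hγπ1 : P.Ge (γ π) 1 := hγF.ge hπ1
  have hcπ1 : P.Ge (algebraMap k L c * π) 1 := by
    have := P.ge_mul (P.ge_const c) hπ1
    simpa using this
  have hpow := ylc_pow_sub P hγπ1 hcπ1 he (i + 1)
  have hmain : P.Ge (ρ (g * w * g⁻¹) P.pi - P.pi - algebraMap k L (c ^ i * a) * π ^ (i + 1))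
      (i + 2) := by
    have e1 : ρ (g * w * g⁻¹) P.pi - P.pi - algebraMap k L (c ^ i * a) * π ^ (i + 1) =
        algebraMap k L c⁻¹ * (γ (σ π - π - algebraMap k L a * π ^ (i + 1)) - γ (σ e' - e')) +
        algebraMap k L (c⁻¹ * a) * ((γ π) ^ (i + 1) - (algebraMap k L c * π) ^ (i + 1)) := by
      rw [hcalc, hσv, map_mul, AlgEquiv.commutes]
      simp only [map_sub, map_mul, map_pow, AlgEquiv.commutes, map_inv₀]
      field_simp
      ring
    rw [e1]
    refine P.ge_add ?_ ?_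
    · have := P.ge_mul (P.ge_const c⁻¹) (P.ge_sub (hγF.ge haG') (hγF.ge hσe'))
      rw [zero_add] at this
      exact this
    · have := P.ge_mul (P.ge_const (c⁻¹ * a)) hpow
      rw [zero_add] at this
      refine P.ge_mono this ?_
      push_cast; linarith
  refine ⟨?_, hmain⟩
  -- the order
  have hca : c ^ i * a ≠ 0 := mul_ne_zero (pow_ne_zero _ hc) ha
  have hcaL : algebraMap k L (c ^ i * a) ≠ 0 := by
    rw [Ne, map_eq_zero]; exact hca
  have hX : algebraMap k L (c ^ i * a) * π ^ (i + 1) ≠ 0 :=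
    mul_ne_zero hcaL (pow_ne_zero _ P.pi_ne)
  have hordX : P.ord (algebraMap k L (c ^ i * a) * π ^ (i + 1)) = i + 1 := by
    rw [P.ord_mul _ _ hcaL (pow_ne_zero _ P.pi_ne), P.ord_const _ hca, P.ord_pow P.pi_ne,
      P.ord_pi]
    push_cast; ring
  have h5 := P.ord_add_of_lt (x := algebraMap k L (c ^ i * a) * π ^ (i + 1))
    (y := ρ (g * w * g⁻¹) P.pi - P.pi - algebraMap k L (c ^ i * a) * π ^ (i + 1)) hX
    (by rw [hordX]; exact P.ge_mono hmain (by linarith))
  have h6 : algebraMap k L (c ^ i * a) * π ^ (i + 1) +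
      (ρ (g * w * g⁻¹) P.pi - P.pi - algebraMap k L (c ^ i * a) * π ^ (i + 1)) =
      ρ (g * w * g⁻¹) P.pi - P.pi := by ring
  rw [h6, hordX] at h5
  rw [Place.b, h5.2]
  ring

end Pool.CND
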