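import Pool.Agent.H90.CNY.Stmts

set_option autoImplicit false

namespace Pool.CND

theorem yld_thm : S_YLD := by
  intro p n r b l s c hp hpn hn h
  have hnQ : (n : ℚ) ≠ 0 := by
    have : n ≠ 0 := by omega
    exact_mod_cast this
  refine ⟨?_, ?_⟩
  · rintro ⟨m, hm⟩
    refine ⟨m + r * s, ?_⟩
    have hmQ : (r : ℚ) * l = n * m := by exact_mod_cast hm
    apply mul_left_cancel₀ hnQ
    push_cast at h ⊢
    calc (n : ℚ) * ((r * p ^ b) * c) = r * ((n * p ^ b) * c) := by ring
      _ = r * (l + n * s) := by rw [h]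
      _ = r * l + n * (r * s) := by ring
      _ = n * (m + r * s) := by rw [hmQ]; ring
  · rintro ⟨j, z, hz⟩
    have h1 : (p : ℤ) ^ j * (r * l) = n * (p ^ b * z - p ^ j * r * s) := by
      have h2 : ((p : ℚ) ^ j * (r * l)) = n * (p ^ b * z - p ^ j * r * s) := by
        push_cast at h hz
        have h3 : (p : ℚ) ^ j * r * (l + n * s) = n * p ^ b * z := by
          rw [← h, ← hz]; ring
        linear_combination h3
      exact_mod_cast h2
    have h4 : (n : ℤ) ∣ (p : ℤ) ^ j * (r * l) := ⟨_, h1⟩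
    have hcop : IsCoprime (n : ℤ) ((p : ℤ) ^ j) := by
      apply IsCoprime.pow_right
      have : Nat.Coprime n p := ((Nat.Prime.coprime_iff_not_dvd hp).2 hpn).symm
      exact Nat.isCoprime_iff_coprime.2 this
    exact hcop.dvd_of_dvd_mul_left h4

end Pool.CND
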